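import Pool.Agent.Q120.NL.Stm
import Pool.Agent.Q298.GB.Pair
import Pool.Agent.Q298.GB.Co
import Pool.Agent.Q298.GB.Nm
import Pool.Agent.Q151.GB.VO
import Pool.Agent.Q65.NB.LB

/-!
# Project NL of helper120, job LO: the lower bound for one zero
-/

set_option autoImplicit false

namespace Pool.Agent.Q214.NL

open Complex MeasureTheory Filter Topology Set
open Pool.Agent.Q286.GB Pool.Agent.Q120.NL
open Pool.Agent.Q298.GB (CC_meas CC_const CC_nat CC_zero CC_succ a_eq mu_le pairG nm_Hc_one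
  nm_Hc_zero Hd_bdd Hd_cont Hc_contDiff Hc_nonneg Hc_le_one cpow_cont)

theorem nl_nonneg (p σ : ℝ) (u : ℝ → ℂ) : 0 ≤ nl p σ u := by
  unfold nl
  refine Real.rpow_nonneg ?_ _
  refine setIntegral_nonneg measurableSet_Ioi fun y hy => ?_
  have hy0 : (0 : ℝ) < y := lt_trans one_pos hy
  positivity

/-! ## the coefficients -/

theorem CC_le (O : LFn) (N : ℕ) (a : ℕ → ℂ) {p σ : ℝ} (hp : 1 ≤ p) (hσ : 0 < σ)
    (hint : IntegrableOn (fun y : ℝ => ‖CC O N a y‖ ^ p * y ^ (-(p * σ) - 1)) (Ioi 1)) (k : ℕ)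
    (hk : 1 ≤ k) :
    ‖CC O N a (k : ℝ)‖ ≤ ((k : ℝ) + 1) ^ (σ + 1) * nl p σ (CC O N a) := by
  have hk' : (1 : ℝ) ≤ k := by exact_mod_cast hk
  have hp0 : 0 < p := by linarith
  have hpσ : 0 < p * σ := by positivity
  set I : ℝ := ∫ y in Ioi (1 : ℝ), ‖CC O N a y‖ ^ p * y ^ (-(p * σ) - 1) with hI
  have hnn : ∀ y ∈ Ioi (1 : ℝ), 0 ≤ ‖CC O N a y‖ ^ p * y ^ (-(p * σ) - 1) := by
    intro y hy
    have hy0 : (0 : ℝ) < y := lt_trans one_pos hy
    positivity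
  have hI0 : 0 ≤ I := setIntegral_nonneg measurableSet_Ioi hnn
  have hsub : Ioo (k : ℝ) (k + 1) ⊆ Ioi (1 : ℝ) := fun y hy => lt_of_le_of_lt hk' hy.1
  have h1 : ∫ y in Ioo (k : ℝ) (k + 1), ‖CC O N a y‖ ^ p * y ^ (-(p * σ) - 1) ≤ I :=
    setIntegral_mono_set hint ((ae_restrict_iff' measurableSet_Ioi).2 (Eventually.of_forall hnn))
      (Eventually.of_forall hsub)
  have h2 : ∫ _ in Ioo (k : ℝ) (k + 1), ‖CC O N a (k : ℝ)‖ ^ p * ((k : ℝ) + 1) ^ (-(p * σ) - 1) ≤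
      ∫ y in Ioo (k : ℝ) (k + 1), ‖CC O N a y‖ ^ p * y ^ (-(p * σ) - 1) := by
    refine setIntegral_mono_on (integrableOn_const (by simp)) (hint.mono_set hsub)
      measurableSet_Ioo ?_
    intro y hy
    have hy0 : 0 < y := by linarith [hy.1]
    rw [CC_const O N a k hy.1.le hy.2]
    apply mul_le_mul_of_nonneg_left _ (by positivity)
    exact Real.rpow_le_rpow_of_nonpos hy0 hy.2.le (by linarith)
  rw [setIntegral_const, smul_eq_mul] at h2
  have h3 : volume.real (Ioo (k : ℝ) (k + 1)) = 1 := by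
    rw [Measure.real, Real.volume_Ioo]
    simp
  rw [h3, one_mul] at h2
  have hk1 : (0 : ℝ) < (k : ℝ) + 1 := by linarith
  have hk2 : (1 : ℝ) ≤ (k : ℝ) + 1 := by linarith
  have h4 : ‖CC O N a (k : ℝ)‖ ^ p ≤ ((k : ℝ) + 1) ^ (p * σ + 1) * I := by
    have h5 := h2.trans h1
    have h6 : ((k : ℝ) + 1) ^ (p * σ + 1) * ((k : ℝ) + 1) ^ (-(p * σ) - 1) = 1 := by
      rw [← Real.rpow_add hk1]
      have : p * σ + 1 + (-(p * σ) - 1) = 0 := by ring
      rw [this, Real.rpow_zero]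
    calc ‖CC O N a (k : ℝ)‖ ^ p = ((k : ℝ) + 1) ^ (p * σ + 1) *
          (‖CC O N a (k : ℝ)‖ ^ p * ((k : ℝ) + 1) ^ (-(p * σ) - 1)) := by
          rw [mul_left_comm, h6, mul_one]
      _ ≤ _ := mul_le_mul_of_nonneg_left h5 (by positivity)
  have h5 := Real.rpow_le_rpow (by positivity) h4 (one_div_nonneg.2 hp0.le)
  rw [← Real.rpow_mul (norm_nonneg _), mul_one_div, div_self hp0.ne', Real.rpow_one,
    Real.mul_rpow (by positivity) hI0, ← Real.rpow_mul hk1.le] at h5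
  refine h5.trans ?_
  have h6 : I ^ (1 / p) = nl p σ (CC O N a) := rfl
  rw [h6]
  apply mul_le_mul_of_nonneg_right _ (nl_nonneg _ _ _)
  apply Real.rpow_le_rpow_of_exponent_le hk2
  rw [mul_one_div, add_div, mul_div_assoc, mul_comm p, div_mul_cancel₀ _ hp0.ne'] 
  have : 1 / p ≤ 1 := by
    rw [div_le_one hp0]
    exact hp
  linarith

theorem cc_le' (O : LFn) (N : ℕ) (a : ℕ → ℂ) {p σ : ℝ} (hp : 1 ≤ p) (hσ : 0 < σ)
    (hint : IntegrableOn (fun y : ℝ => ‖CC O N a y‖ ^ p * y ^ (-(p * σ) - 1)) (Ioi 1)) (k : ℕ)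
    (hk : 1 ≤ k) :
    ‖cc O N a k‖ ≤ 1 + 2 * (((k : ℝ) + 1) ^ (σ + 1) * nl p σ (CC O N a)) := by
  obtain ⟨j, rfl⟩ : ∃ j, k = j + 1 := ⟨k - 1, by omega⟩
  set E := nl p σ (CC O N a) with hE
  have hE0 : 0 ≤ E := nl_nonneg _ _ _
  have h1 : cc O N a (j + 1) = CC O N a (j : ℝ) - CC O N a ((j + 1 : ℕ) : ℝ) := by
    rw [CC_succ]
    ring
  rw [h1]
  refine (norm_sub_le _ _).trans ?_
  have h2 := CC_le O N a hp hσ hint (j + 1) (by omega)
  rw [← hE] at h2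
  have hj : (0 : ℝ) ≤ j := Nat.cast_nonneg j
  have hm : ((j : ℝ) + 1) ^ (σ + 1) * E ≤ (((j + 1 : ℕ) : ℝ) + 1) ^ (σ + 1) * E := by
    apply mul_le_mul_of_nonneg_right _ hE0
    apply Real.rpow_le_rpow (by linarith) _ (by linarith)
    push_cast
    linarith
  have h0 : 0 ≤ ((j : ℝ) + 1) ^ (σ + 1) * E := by positivity
  have h3 : ‖CC O N a (j : ℝ)‖ ≤ 1 + ((j : ℝ) + 1) ^ (σ + 1) * E := by
    rcases Nat.eq_zero_or_pos j with h | h
    · rw [h, CC_zero, norm_one]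
      rw [h] at h0
      linarith
    · have := CC_le O N a hp hσ hint j h
      rw [← hE] at this
      linarith
  linarith

theorem a_sum (O : LFn) (N : ℕ) (a : ℕ → ℂ) {p σ : ℝ} (hp : 1 ≤ p) (hσ : 0 < σ) (hN : 1 ≤ N)
    (hint : IntegrableOn (fun y : ℝ => ‖CC O N a y‖ ^ p * y ^ (-(p * σ) - 1)) (Ioi 1))
    (hE : nl p σ (CC O N a) ≤ 1) :
    ∑ n ∈ Finset.Icc 1 N, ‖a n‖ ≤ (3 * (2 : ℝ) ^ (σ + 1) * ∑' n : ℕ, ‖O.mu n‖ * (n : ℝ) ^ (-2 : ℝ)) *
      (N : ℝ) ^ (σ + 4) := by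
  set M : ℝ := ∑' n : ℕ, ‖O.mu n‖ * (n : ℝ) ^ (-2 : ℝ) with hM
  have hM0 : 0 ≤ M := tsum_nonneg fun n => by positivity
  set E := nl p σ (CC O N a) with hEd
  have hE0 : 0 ≤ E := nl_nonneg _ _ _
  have hN' : (1 : ℝ) ≤ N := by exact_mod_cast hN
  have h0 : (0 : ℝ) < N := by linarith
  set Q : ℝ := 3 * ((2 : ℝ) ^ (σ + 1) * (N : ℝ) ^ (σ + 1)) with hQ
  have hcc : ∀ k : ℕ, 1 ≤ k → k ≤ N → ‖cc O N a k‖ ≤ Q := by
    intro k hk1 hk2
    have hk' : (k : ℝ) ≤ N := by exact_mod_cast hk2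
    refine (cc_le' O N a hp hσ hint k hk1).trans ?_
    rw [← hEd]
    have h1 : ((k : ℝ) + 1) ^ (σ + 1) ≤ (2 * (N : ℝ)) ^ (σ + 1) :=
      Real.rpow_le_rpow (by positivity) (by linarith) (by linarith)
    rw [Real.mul_rpow (by norm_num) h0.le] at h1
    have h2 : ((k : ℝ) + 1) ^ (σ + 1) * E ≤ (2 : ℝ) ^ (σ + 1) * (N : ℝ) ^ (σ + 1) := by
      calc ((k : ℝ) + 1) ^ (σ + 1) * E ≤ ((k : ℝ) + 1) ^ (σ + 1) * 1 :=
            mul_le_mul_of_nonneg_left hE (by positivity)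
        _ ≤ _ := by rw [mul_one]; exact h1
    have h3 : (1 : ℝ) ≤ (2 : ℝ) ^ (σ + 1) * (N : ℝ) ^ (σ + 1) := by
      have h4 : (1 : ℝ) ≤ (2 : ℝ) ^ (σ + 1) := Real.one_le_rpow (by norm_num) (by linarith)
      have h5 : (1 : ℝ) ≤ (N : ℝ) ^ (σ + 1) := Real.one_le_rpow hN' (by linarith)
      calc (1 : ℝ) = 1 * 1 := by ring
        _ ≤ _ := mul_le_mul h4 h5 (by norm_num) (by linarith)
    rw [hQ]
    linarith
  have hQ0 : 0 ≤ Q := by positivity
  have h1 : ∀ n ∈ Finset.Icc 1 N, ‖a n‖ ≤ Q * ((N : ℝ) ^ 2 * M) := by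
    intro n hn
    rw [Finset.mem_Icc] at hn
    obtain ⟨h1, h2⟩ := hn
    rw [a_eq O N a n h1 h2]
    refine (norm_sum_le _ _).trans ?_
    have h3 : ∀ p ∈ n.divisorsAntidiagonal, ‖cc O N a p.1 * O.mu p.2‖ ≤ Q * ‖O.mu p.2‖ := by
      intro p hp
      have hp1 := Nat.mem_divisorsAntidiagonal.1 hp
      have hp2 : 1 ≤ p.1 := Nat.pos_of_ne_zero fun h => hp1.2 (by rw [← hp1.1, h, zero_mul])
      have hp3 : p.1 ≤ N := (Nat.le_of_dvd h1 ⟨p.2, hp1.1.symm⟩).trans h2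
      rw [norm_mul]
      exact mul_le_mul_of_nonneg_right (hcc p.1 hp2 hp3) (norm_nonneg _)
    refine (Finset.sum_le_sum h3).trans ?_
    rw [← Finset.mul_sum]
    apply mul_le_mul_of_nonneg_left _ hQ0
    rw [Nat.sum_divisorsAntidiagonal' (fun _ y => ‖O.mu y‖)]
    refine (Finset.sum_le_sum_of_subset_of_nonneg ?_ fun _ _ _ => norm_nonneg _).trans (mu_le O N)
    intro d hd
    rw [Nat.mem_divisors] at hd
    rw [Finset.mem_Icc]
    exact ⟨Nat.pos_of_dvd_of_pos hd.1 h1, (Nat.le_of_dvd h1 hd.1).trans h2⟩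
  refine (Finset.sum_le_sum h1).trans ?_
  rw [Finset.sum_const, Nat.card_Icc, Nat.add_sub_cancel, nsmul_eq_mul]
  have h2 : (N : ℝ) ^ (σ + 4) = (N : ℝ) ^ (σ + 1) * (N : ℝ) ^ 3 := by
    rw [← Real.rpow_natCast, ← Real.rpow_add h0]
    congr 1
    push_cast
    ring
  rw [h2, hQ]
  apply le_of_eq
  ring

/-! ## the test function -/

/-- the primitive of the test function -/
noncomputable def PP (ρ : ℂ) (Y y : ℝ) : ℂ := 1 / ρ * (y : ℂ) ^ (-ρ) * ((Hc (y / Y) : ℝ) : ℂ)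

/-- the test function -/
noncomputable def KK (ρ : ℂ) (Y y : ℝ) : ℂ := (y : ℂ) ^ (-ρ - 1) * ((Hc (y / Y) : ℝ) : ℂ) -
  1 / ρ * (y : ℂ) ^ (-ρ) * ((deriv Hc (y / Y) / Y : ℝ) : ℂ)

theorem PP_deriv {ρ : ℂ} (hρ : ρ ≠ 0) {Y y : ℝ} (hy : 0 < y) :
    HasDerivAt (PP ρ Y) (-KK ρ Y y) y := by
  have h1 : HasDerivAt (fun y : ℝ => (y : ℂ) ^ (-ρ)) (-ρ * (y : ℂ) ^ (-ρ - 1)) y := by
    have h := ((hasDerivAt_id (y : ℂ)).cpow_const (c := -ρ) (Or.inl (by simpa using hy))).comp_ofReal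
    simpa using h
  have h2 : HasDerivAt (fun y : ℝ => Hc (y / Y)) (deriv Hc (y / Y) / Y) y := by
    have h3 : HasDerivAt Hc (deriv Hc (y / Y)) (y / Y) :=
      (Hc_contDiff.differentiable (by norm_num) _).hasDerivAt
    have h4 : HasDerivAt (fun y : ℝ => y / Y) (1 / Y) y := (hasDerivAt_id y).div_const Y
    have h5 := h3.comp y h4
    refine h5.congr_deriv ?_
    ring
  have h6 := (h1.const_mul (1 / ρ)).mul h2.ofReal_comp
  refine h6.congr_deriv ?_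
  unfold KK
  field_simp
  ring

theorem Hd_zero2 {x : ℝ} (h : 2 ≤ x) : deriv Hc x = 0 := by
  have h1 : IsLocalMin Hc x := Eventually.of_forall fun z => by
    rw [nm_Hc_zero h]
    exact Hc_nonneg z
  exact h1.deriv_eq_zero

theorem KK_zero {ρ : ℂ} {Y y : ℝ} (hY : 0 < Y) (hy : 2 * Y ≤ y) : KK ρ Y y = 0 := by
  have h : 2 ≤ y / Y := by rwa [le_div_iff₀ hY]
  unfold KK
  rw [nm_Hc_zero h, Hd_zero2 h]
  simp

theorem PP_zero {ρ : ℂ} {Y y : ℝ} (hY : 0 < Y) (hy : 2 * Y ≤ y) : PP ρ Y y = 0 := by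
  have h : 2 ≤ y / Y := by rwa [le_div_iff₀ hY]
  unfold PP
  rw [nm_Hc_zero h]
  simp

theorem PP_one {ρ : ℂ} {Y : ℝ} (hY : 1 ≤ Y) : PP ρ Y 1 = 1 / ρ := by
  unfold PP
  rw [nm_Hc_one (by rw [div_le_one (by linarith)]; exact hY)]
  simp

theorem KK_cont (ρ : ℂ) (Y : ℝ) : ContinuousOn (KK ρ Y) (Ioi 0) := by
  unfold KK
  have h1 : Continuous fun y : ℝ => ((Hc (y / Y) : ℝ) : ℂ) :=
    Complex.continuous_ofReal.comp (Hc_contDiff.continuous.comp (continuous_id.div_const Y))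
  have h2 : Continuous fun y : ℝ => ((deriv Hc (y / Y) / Y : ℝ) : ℂ) :=
    Complex.continuous_ofReal.comp ((Hd_cont.comp (continuous_id.div_const Y)).div_const Y)
  exact ((cpow_cont _).mul h1.continuousOn).sub
    ((continuousOn_const.mul (cpow_cont _)).mul h2.continuousOn)

theorem KK_meas (ρ : ℂ) (Y : ℝ) : Measurable (KK ρ Y) := by
  unfold KK
  have h1 : Measurable fun y : ℝ => ((Hc (y / Y) : ℝ) : ℂ) :=
    (Complex.continuous_ofReal.comp
      (Hc_contDiff.continuous.comp (continuous_id.div_const Y))).measurable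
  have h2 : Measurable fun y : ℝ => ((deriv Hc (y / Y) / Y : ℝ) : ℂ) :=
    (Complex.continuous_ofReal.comp
      ((Hd_cont.comp (continuous_id.div_const Y)).div_const Y)).measurable
  exact ((Complex.measurable_ofReal.pow_const _).mul h1).sub
    (((Complex.measurable_ofReal.pow_const _).const_mul _).mul h2)

theorem KK_le {ρ : ℂ} : ∃ C : ℝ, 0 < C ∧ ∀ Y y : ℝ, 0 < Y → 0 < y →
    ‖KK ρ Y y‖ ≤ C * y ^ (-ρ.re - 1) := by
  obtain ⟨H, hH0, hH⟩ := Hd_bdd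
  refine ⟨1 + ‖1 / ρ‖ * (2 * H), by positivity, ?_⟩
  intro Y y hY hy
  rcases le_or_gt (2 * Y) y with h | h
  · rw [KK_zero hY h, norm_zero]
    positivity
  · have h1 : ‖(y : ℂ) ^ (-ρ - 1)‖ = y ^ (-ρ.re - 1) := by
      rw [Complex.norm_cpow_eq_rpow_re_of_pos hy]
      simp
    have h2 : ‖(y : ℂ) ^ (-ρ)‖ = y * y ^ (-ρ.re - 1) := by
      rw [Complex.norm_cpow_eq_rpow_re_of_pos hy, Real.rpow_sub_one hy.ne']
      field_simp
      simp
    have hyY : 0 ≤ y / Y := by positivity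
    have hyY2 : y / Y ≤ 2 := by
      rw [div_le_iff₀ hY]
      exact h.le
    have h3 : ‖((Hc (y / Y) : ℝ) : ℂ)‖ ≤ 1 := by
      rw [Complex.norm_real, Real.norm_eq_abs, abs_of_nonneg (Hc_nonneg _)]
      exact Hc_le_one _
    have h4 : ‖((deriv Hc (y / Y) / Y : ℝ) : ℂ)‖ ≤ H / Y := by
      rw [Complex.norm_real, Real.norm_eq_abs, abs_div, abs_of_pos hY]
      exact div_le_div_of_nonneg_right (hH _ ⟨hyY, hyY2⟩) hY.le
    unfold KK
    refine (norm_sub_le _ _).trans ?_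
    rw [norm_mul, norm_mul, norm_mul, h1, h2]
    have hq : 0 ≤ y ^ (-ρ.re - 1) := by positivity
    have h5 : y * (H / Y) ≤ 2 * H := by
      calc y * (H / Y) = (y / Y) * H := by ring
        _ ≤ 2 * H := mul_le_mul_of_nonneg_right hyY2 hH0
    calc y ^ (-ρ.re - 1) * ‖((Hc (y / Y) : ℝ) : ℂ)‖ +
          ‖1 / ρ‖ * (y * y ^ (-ρ.re - 1)) * ‖((deriv Hc (y / Y) / Y : ℝ) : ℂ)‖
        ≤ y ^ (-ρ.re - 1) * 1 + ‖1 / ρ‖ * (y * y ^ (-ρ.re - 1)) * (H / Y) := by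
          gcongr
      _ = y ^ (-ρ.re - 1) + ‖1 / ρ‖ * (y * (H / Y)) * y ^ (-ρ.re - 1) := by ring
      _ ≤ y ^ (-ρ.re - 1) + ‖1 / ρ‖ * (2 * H) * y ^ (-ρ.re - 1) := by
          gcongr
      _ = _ := by ring

/-! ## the pairing from below -/

theorem near_orth (hVO : S_VO) (O : LFn) {ρ : ℂ} (hL : O.L ρ = 0) (hρ : 0 < ρ.re) (B : ℝ) (hB : 0 < B) :
    ∃ C : ℝ, 0 < C ∧ ∀ (Y x : ℝ) (n : ℕ), 1 ≤ n → 1 ≤ x → (n : ℝ) * x ≤ Y →
      ‖∑ m ∈ Finset.Icc 1 ⌊2 * Y⌋₊, O.lam m * PP ρ Y ((n : ℝ) * m)‖ ≤ C * x ^ (-B) := by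
  have hρ0 : ρ ≠ 0 := by
    rintro rfl
    simp at hρ
  obtain ⟨C, hC, h⟩ := hVO O B ‖ρ‖
  refine ⟨‖1 / ρ‖ * C, mul_pos (norm_pos_iff.2 (one_div_ne_zero hρ0)) hC, ?_⟩
  intro Y x n hn hx hnx
  have hn0 : (0 : ℝ) < n := by exact_mod_cast hn
  have hn1 : (1 : ℝ) ≤ n := by exact_mod_cast hn
  have hY0 : 0 < Y := lt_of_lt_of_le (by positivity) hnx
  have hX : x ≤ Y / n := by
    rw [le_div_iff₀ hn0]
    linarith
  have hX1 : 1 ≤ Y / n := hx.trans hX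
  have h1 := h ρ le_rfl (Y / n) hX1
  rw [hL, sub_zero] at h1
  have h2 : ∀ m : ℕ, 1 ≤ m → O.lam m * PP ρ Y ((n : ℝ) * m) =
      (1 / ρ * (n : ℂ) ^ (-ρ)) * (O.lam m * (m : ℂ) ^ (-ρ) * ((Hc (m / (Y / n)) : ℝ) : ℂ)) := by
    intro m hm
    have hm0 : (0 : ℝ) ≤ m := Nat.cast_nonneg m
    unfold PP
    have e1 : (((n : ℝ) * m : ℝ) : ℂ) ^ (-ρ) = (n : ℂ) ^ (-ρ) * (m : ℂ) ^ (-ρ) := by
      push_cast
      have := Complex.mul_cpow_ofReal_nonneg hn0.le hm0 (-ρ)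
      push_cast at this
      exact this
    have e2 : (n : ℝ) * m / Y = m / (Y / n) := by
      field_simp
    rw [e1, e2]
    ring
  have h3 : ∑ m ∈ Finset.Icc 1 ⌊2 * Y⌋₊, O.lam m * PP ρ Y ((n : ℝ) * m) =
      (1 / ρ * (n : ℂ) ^ (-ρ)) * ∑ m ∈ Finset.Icc 1 ⌊2 * (Y / n)⌋₊,
        O.lam m * (m : ℂ) ^ (-ρ) * ((Hc (m / (Y / n)) : ℝ) : ℂ) := by
    rw [Finset.sum_congr rfl fun m hm => h2 m (Finset.mem_Icc.1 hm).1, ← Finset.mul_sum]
    congr 1
    symm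
    apply Finset.sum_subset
    · apply Finset.Icc_subset_Icc le_rfl
      apply Nat.floor_mono
      have : Y / n ≤ Y := div_le_self hY0.le hn1
      linarith
    · intro m hm hm'
      rw [Finset.mem_Icc] at hm hm'
      have h4 : ⌊2 * (Y / n)⌋₊ < m := by
        by_contra h5
        exact hm' ⟨hm.1, by omega⟩
      have h5 : 2 * (Y / n) < m := (Nat.floor_lt (by positivity)).1 h4
      have h6 : 2 ≤ (m : ℝ) / (Y / n) := by
        rw [le_div_iff₀ (by positivity)]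
        exact h5.le
      rw [nm_Hc_zero h6]
      simp
  rw [h3, norm_mul, norm_mul]
  have h4 : ‖(n : ℂ) ^ (-ρ)‖ ≤ 1 := by
    rw [Complex.norm_natCast_cpow_of_pos hn]
    apply Real.rpow_le_one_of_one_le_of_nonpos hn1
    rw [Complex.neg_re]
    linarith
  have h5 : (Y / n) ^ (-B) ≤ x ^ (-B) :=
    Real.rpow_le_rpow_of_nonpos (by linarith) hX (by linarith)
  calc ‖1 / ρ‖ * ‖(n : ℂ) ^ (-ρ)‖ * ‖∑ m ∈ Finset.Icc 1 ⌊2 * (Y / n)⌋₊,
        O.lam m * (m : ℂ) ^ (-ρ) * ((Hc (m / (Y / n)) : ℝ) : ℂ)‖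
      ≤ ‖1 / ρ‖ * 1 * (C * (Y / n) ^ (-B)) := by gcongr
    _ ≤ ‖1 / ρ‖ * 1 * (C * x ^ (-B)) := by gcongr
    _ = _ := by ring

theorem pair_low (hVO : S_VO) (O : LFn) {p σ δ : ℝ} (hp : 1 ≤ p) (hσ : 0 < σ) (hδ : 0 < δ) {ρ : ℂ}
    (hL : O.L ρ = 0) (hρ : 0 < ρ.re) :
    ∃ N0 : ℕ, 2 ≤ N0 ∧ ∀ (N : ℕ) (a : ℕ → ℂ), N0 ≤ N →
      IntegrableOn (fun y : ℝ => ‖CC O N a y‖ ^ p * y ^ (-(p * σ) - 1)) (Ioi 1) →
      nl p σ (CC O N a) ≤ 1 →
      1 / (2 * ‖ρ‖) ≤ ‖∫ y in Ioi (1 : ℝ), CC O N a y * KK ρ ((N : ℝ) ^ (1 + δ)) y‖ := by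
  have hρ0 : ρ ≠ 0 := by
    rintro rfl
    simp at hρ
  have hρn : 0 < ‖ρ‖ := norm_pos_iff.2 hρ0
  obtain ⟨B, hBd⟩ : ∃ B : ℝ, B = (σ + 5) / δ := ⟨_, rfl⟩
  have hB : 0 < B := by
    rw [hBd]
    positivity
  obtain ⟨C, hC, hno⟩ := near_orth hVO O hL hρ B hB
  set M : ℝ := 3 * (2 : ℝ) ^ (σ + 1) * ∑' n : ℕ, ‖O.mu n‖ * (n : ℝ) ^ (-2 : ℝ) with hM
  have hM0 : 0 ≤ M := by
    have : 0 ≤ ∑' n : ℕ, ‖O.mu n‖ * (n : ℝ) ^ (-2 : ℝ) := tsum_nonneg fun n => by positivity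
    positivity
  obtain ⟨N1, hN1⟩ := exists_nat_ge (2 * ‖ρ‖ * (M * C))
  refine ⟨max 2 N1, le_max_left _ _, ?_⟩
  intro N a hN hint hE
  have hN2 : 2 ≤ N := (le_max_left _ _).trans hN
  have hN' : (2 : ℝ) ≤ N := by exact_mod_cast hN2
  have hN0 : (0 : ℝ) < N := by linarith
  have hNN : (N1 : ℝ) ≤ N := by exact_mod_cast (le_max_right _ _).trans hN
  set Y : ℝ := (N : ℝ) ^ (1 + δ) with hY
  have hY1 : 1 ≤ Y := Real.one_le_rpow (by linarith) (by linarith)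
  have hY0 : 0 < Y := by linarith
  have hpair := (pairG O N a (Y := 2 * Y) (by positivity) (fun y hy => PP_deriv hρ0 (Y := Y) hy)
    (KK_cont ρ Y) (fun y hy => PP_zero hY0 hy) (fun y hy => KK_zero hY0 hy.le)).2
  rw [hpair, PP_one hY1]
  set R : ℂ := ∑ n ∈ Finset.Icc 1 N, a n *
    ∑ m ∈ Finset.Icc 1 ⌊2 * Y⌋₊, O.lam m * PP ρ Y ((n : ℝ) * m) with hR
  have hx1 : (1 : ℝ) ≤ (N : ℝ) ^ δ := Real.one_le_rpow (by linarith) hδ.le
  have hRb : ‖R‖ ≤ 1 / (2 * ‖ρ‖) := by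
    have h1 : ∀ n ∈ Finset.Icc 1 N, ‖a n *
        ∑ m ∈ Finset.Icc 1 ⌊2 * Y⌋₊, O.lam m * PP ρ Y ((n : ℝ) * m)‖ ≤
        ‖a n‖ * (C * ((N : ℝ) ^ δ) ^ (-B)) := by
      intro n hn
      rw [Finset.mem_Icc] at hn
      rw [norm_mul]
      apply mul_le_mul_of_nonneg_left _ (norm_nonneg _)
      apply hno Y ((N : ℝ) ^ δ) n hn.1 hx1
      have h2 : (n : ℝ) ≤ N := by exact_mod_cast hn.2
      rw [hY, Real.rpow_add hN0, Real.rpow_one]
      gcongr
    refine (norm_sum_le _ _).trans ((Finset.sum_le_sum h1).trans ?_)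
    rw [← Finset.sum_mul]
    have h2 := a_sum O N a hp hσ (by omega) hint hE
    rw [← hM] at h2
    have h3 : ((N : ℝ) ^ δ) ^ (-B) = (N : ℝ) ^ (-(σ + 5)) := by
      rw [← Real.rpow_mul hN0.le, hBd]
      congr 1
      field_simp
    have h4 : (N : ℝ) ^ (σ + 4) * (N : ℝ) ^ (-(σ + 5)) = 1 / N := by
      rw [← Real.rpow_add hN0]
      have : σ + 4 + -(σ + 5) = -1 := by ring
      rw [this, Real.rpow_neg_one, one_div]
    rw [h3]
    calc (∑ n ∈ Finset.Icc 1 N, ‖a n‖) * (C * (N : ℝ) ^ (-(σ + 5)))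
        ≤ (M * (N : ℝ) ^ (σ + 4)) * (C * (N : ℝ) ^ (-(σ + 5))) :=
          mul_le_mul_of_nonneg_right h2 (by positivity)
      _ = M * C * ((N : ℝ) ^ (σ + 4) * (N : ℝ) ^ (-(σ + 5))) := by ring
      _ = M * C / N := by rw [h4]; ring
      _ ≤ 1 / (2 * ‖ρ‖) := by
          rw [div_le_div_iff₀ hN0 (by positivity)]
          linarith
  have h5 : ‖(1 : ℂ) / ρ‖ = 1 / ‖ρ‖ := by rw [norm_div, norm_one]
  have h6 : ‖(1 : ℂ) / ρ‖ ≤ ‖(1 : ℂ) / ρ - R‖ + ‖R‖ := by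
    have h7 : (1 : ℂ) / ρ = (1 / ρ - R) + R := by ring
    conv_lhs => rw [h7]
    exact norm_add_le _ _
  have h7 : 1 / ‖ρ‖ = 1 / (2 * ‖ρ‖) + 1 / (2 * ‖ρ‖) := by
    field_simp
    norm_num
  linarith

/-! ## the pairing from above -/

theorem nl_ind (p σ : ℝ) (hp : 0 < p) (u : ℝ → ℂ) :
    Pool.Agent.Q120.NB.ny p σ ((Ioi (1 : ℝ)).indicator u) = nl p σ u := by
  unfold Pool.Agent.Q120.NB.ny nl
  congr 1
  have h1 : ∀ y : ℝ, ‖(Ioi (1 : ℝ)).indicator u y‖ ^ p * y ^ (-(p * σ) - 1) =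
      (Ioi (1 : ℝ)).indicator (fun y => ‖u y‖ ^ p * y ^ (-(p * σ) - 1)) y := by
    intro y
    by_cases hy : y ∈ Ioi (1 : ℝ)
    · rw [indicator_of_mem hy, indicator_of_mem hy]
    · rw [indicator_of_notMem hy, indicator_of_notMem hy, norm_zero, Real.zero_rpow hp.ne',
        zero_mul]
  simp only [h1]
  rw [setIntegral_indicator measurableSet_Ioi]
  congr 2
  exact inter_eq_right.2 (Ioi_subset_Ioi zero_le_one)

theorem int_ind (p σ : ℝ) (hp : 0 < p) (u : ℝ → ℂ)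
    (hui : IntegrableOn (fun y : ℝ => ‖u y‖ ^ p * y ^ (-(p * σ) - 1)) (Ioi 1)) :
    IntegrableOn (fun y : ℝ => ‖(Ioi (1 : ℝ)).indicator u y‖ ^ p * y ^ (-(p * σ) - 1)) (Ioi 0) := by
  have h1 : ∀ y : ℝ, ‖(Ioi (1 : ℝ)).indicator u y‖ ^ p * y ^ (-(p * σ) - 1) =
      (Ioi (1 : ℝ)).indicator (fun y => ‖u y‖ ^ p * y ^ (-(p * σ) - 1)) y := by
    intro y
    by_cases hy : y ∈ Ioi (1 : ℝ)
    · rw [indicator_of_mem hy, indicator_of_mem hy]
    · rw [indicator_of_notMem hy, indicator_of_notMem hy, norm_zero, Real.zero_rpow hp.ne',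
        zero_mul]
  simp only [h1]
  exact ((integrable_indicator_iff measurableSet_Ioi).2 hui).integrableOn

theorem pair_ind (u K : ℝ → ℂ) : ∫ y in Ioi (0 : ℝ), (Ioi (1 : ℝ)).indicator u y *
    (Ioi (1 : ℝ)).indicator K y = ∫ y in Ioi (1 : ℝ), u y * K y := by
  have h1 : ∀ y : ℝ, (Ioi (1 : ℝ)).indicator u y * (Ioi (1 : ℝ)).indicator K y =
      (Ioi (1 : ℝ)).indicator (fun y => u y * K y) y := by
    intro y
    by_cases hy : y ∈ Ioi (1 : ℝ)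
    · rw [indicator_of_mem hy, indicator_of_mem hy, indicator_of_mem hy]
    · rw [indicator_of_notMem hy, indicator_of_notMem hy, indicator_of_notMem hy, zero_mul]
  simp only [h1]
  rw [setIntegral_indicator measurableSet_Ioi]
  congr 2
  exact inter_eq_right.2 (Ioi_subset_Ioi zero_le_one)

theorem up_one {σ β C Z S : ℝ} (hC : 0 < C) (hS : 0 ≤ S) (K : ℝ → ℂ) (hK : Measurable K)
    (hb : ∀ y : ℝ, 0 < y → ‖K y‖ ≤ C * y ^ (-β - 1)) (hz : ∀ y : ℝ, Z ≤ y → K y = 0)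
    (hs : ∀ y : ℝ, 1 ≤ y → y ≤ Z → y ^ (σ - β) ≤ S)
    (u : ℝ → ℂ) (hu : Measurable u)
    (hui : IntegrableOn (fun y : ℝ => ‖u y‖ ^ (1 : ℝ) * y ^ (-(1 * σ) - 1)) (Ioi 1)) :
    ‖∫ y in Ioi (1 : ℝ), u y * K y‖ ≤ C * S * nl 1 σ u := by
  rw [← pair_ind, ← nl_ind 1 σ one_pos]
  refine Pool.Agent.Q65.NB.sup_pair σ (C * S) _ _ (hu.indicator measurableSet_Ioi)
    (hK.indicator measurableSet_Ioi) (int_ind 1 σ one_pos u hui) fun y hy => ?_
  by_cases hy1 : y ∈ Ioi (1 : ℝ)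
  · rw [indicator_of_mem hy1]
    rcases le_or_gt Z y with h | h
    · rw [hz y h, norm_zero, zero_mul]
      positivity
    · have h4 : C * y ^ (-β - 1) * y ^ (σ + 1) = C * y ^ (σ - β) := by
        rw [mul_assoc, ← Real.rpow_add hy]
        congr 2
        ring
      calc ‖K y‖ * y ^ (σ + 1) ≤ C * y ^ (-β - 1) * y ^ (σ + 1) :=
            mul_le_mul_of_nonneg_right (hb y hy) (by positivity)
        _ = C * y ^ (σ - β) := h4
        _ ≤ C * S := mul_le_mul_of_nonneg_left (hs y (le_of_lt hy1) h.le) hC.le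
  · rw [indicator_of_notMem hy1, norm_zero, zero_mul]
    positivity

theorem up_q {p q σ β C Z S : ℝ} (hpq : p.HolderConjugate q) (hC : 0 < C) (hZ : 1 ≤ Z)
    (K : ℝ → ℂ) (hK : Measurable K)
    (hb : ∀ y : ℝ, 0 < y → ‖K y‖ ≤ C * y ^ (-β - 1)) (hz : ∀ y : ℝ, Z ≤ y → K y = 0)
    (hs : ∫ y in Ioc (1 : ℝ) Z, y ^ (q * (σ - β) - 1) ≤ S)
    (u : ℝ → ℂ) (hu : Measurable u)
    (hui : IntegrableOn (fun y : ℝ => ‖u y‖ ^ p * y ^ (-(p * σ) - 1)) (Ioi 1)) :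
    ‖∫ y in Ioi (1 : ℝ), u y * K y‖ ≤ C * S ^ (1 / q) * nl p σ u := by
  have hp0 : 0 < p := hpq.pos
  have hq0 : 0 < q := hpq.symm.pos
  have hpq1 : 1 / p + 1 / q = 1 := by
    have := hpq.inv_add_inv_eq_one
    rw [one_div, one_div]
    exact this
  have he : q * (σ + 1 / p) + (-β - 1) * q = q * (σ - β) - 1 := by
    have h1 : 1 / p = 1 - 1 / q := by linarith
    rw [h1]
    field_simp
    ring
  rw [← pair_ind, ← nl_ind p σ hp0]
  set g : ℝ → ℝ := fun y => ‖(Ioi (1 : ℝ)).indicator K y‖ ^ q * y ^ (q * (σ + 1 / p)) with hg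
  have hgm : Measurable g :=
    ((hK.indicator measurableSet_Ioi).norm.pow_const _).mul (measurable_id.pow_const _)
  have hdom : IntegrableOn (fun y : ℝ => y ^ (q * (σ - β) - 1)) (Ioc 1 Z) := by
    have h1 : IntervalIntegrable (fun y : ℝ => y ^ (q * (σ - β) - 1)) volume 1 Z := by
      apply intervalIntegral.intervalIntegrable_rpow
      right
      rw [uIcc_of_le hZ]
      intro h
      linarith [h.1]
    exact (intervalIntegrable_iff_integrableOn_Ioc_of_le hZ).1 h1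
  have hd2 : IntegrableOn ((Ioc (1 : ℝ) Z).indicator fun y : ℝ => C ^ q * y ^ (q * (σ - β) - 1))
      (Ioi 0) := ((integrable_indicator_iff measurableSet_Ioc).2 (hdom.const_mul _)).integrableOn
  have hg0 : ∀ y ∈ Ioi (0 : ℝ), 0 ≤ g y := by
    intro y hy
    have hy0 : (0 : ℝ) < y := hy
    simp only [hg]
    positivity
  have hle : ∀ y ∈ Ioi (0 : ℝ), g y ≤
      (Ioc (1 : ℝ) Z).indicator (fun y : ℝ => C ^ q * y ^ (q * (σ - β) - 1)) y := by
    intro y hy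
    have hy0 : (0 : ℝ) < y := hy
    simp only [hg]
    by_cases hy1 : y ∈ Ioc (1 : ℝ) Z
    · rw [indicator_of_mem hy1, indicator_of_mem (show y ∈ Ioi (1 : ℝ) from hy1.1)]
      have h1 : ‖K y‖ ^ q ≤ (C * y ^ (-β - 1)) ^ q :=
        Real.rpow_le_rpow (norm_nonneg _) (hb y hy0) hq0.le
      have h2 : (C * y ^ (-β - 1)) ^ q * y ^ (q * (σ + 1 / p)) = C ^ q * y ^ (q * (σ - β) - 1) := by
        rw [Real.mul_rpow hC.le (by positivity), ← Real.rpow_mul hy0.le, mul_assoc,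
          ← Real.rpow_add hy0, add_comm, he]
      rw [← h2]
      exact mul_le_mul_of_nonneg_right h1 (by positivity)
    · rw [indicator_of_notMem hy1]
      apply le_of_eq
      by_cases hy2 : y ∈ Ioi (1 : ℝ)
      · have h3 : Z ≤ y := by
          by_contra h4
          exact hy1 ⟨hy2, (not_le.1 h4).le⟩
        rw [indicator_of_mem hy2, hz y h3, norm_zero, Real.zero_rpow hq0.ne', zero_mul]
      · rw [indicator_of_notMem hy2, norm_zero, Real.zero_rpow hq0.ne', zero_mul]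
  obtain ⟨k1, k2⟩ := Pool.Agent.Q65.NB.piece (Ioi 0) measurableSet_Ioi g _ hgm hg0 hd2 hle
  have hsub : Ioi (0 : ℝ) ∩ Ioc 1 Z = Ioc 1 Z :=
    inter_eq_right.2 fun y hy => lt_trans zero_lt_one hy.1
  rw [setIntegral_indicator measurableSet_Ioc, hsub, integral_const_mul] at k2
  have h1 := Pool.Agent.Q65.NB.hoel p q σ hpq _ _ (hu.indicator measurableSet_Ioi)
    (hK.indicator measurableSet_Ioi) (int_ind p σ hp0 u hui) k1
  refine h1.trans ?_
  have h2 : ∫ y in Ioi (0 : ℝ), g y ≤ C ^ q * S :=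
    k2.trans (mul_le_mul_of_nonneg_left hs (by positivity))
  have h3 : 0 ≤ ∫ y in Ioi (0 : ℝ), g y := setIntegral_nonneg measurableSet_Ioi hg0
  have hS0 : 0 ≤ S := by
    refine le_trans ?_ hs
    refine setIntegral_nonneg measurableSet_Ioc fun y hy => ?_
    have hy0 : (0 : ℝ) < y := lt_trans one_pos hy.1
    positivity
  have h4 : (∫ y in Ioi (0 : ℝ), g y) ^ (1 / q) ≤ C * S ^ (1 / q) := by
    refine (Real.rpow_le_rpow h3 h2 (by positivity)).trans (le_of_eq ?_)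
    rw [Real.mul_rpow (by positivity) hS0, ← Real.rpow_mul hC.le, mul_one_div, div_self hq0.ne',
      Real.rpow_one]
  rw [mul_comm]
  refine mul_le_mul_of_nonneg_right h4 ?_
  rw [nl_ind p σ hp0]
  exact nl_nonneg _ _ _

/-! ## assembly -/

theorem cut_CC (O : LFn) {N N0 : ℕ} (h : N ≤ N0) (a : ℕ → ℂ) (y : ℝ) :
    CC O N0 (fun n => if n ≤ N then a n else 0) y = CC O N a y := by
  unfold CC
  congr 1
  refine Finset.sum_congr rfl fun k _ => ?_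
  unfold cc
  refine Finset.sum_congr rfl fun q _ => ?_
  congr 1
  change (if q.1 ≤ N0 then (if q.1 ≤ N then a q.1 else 0) else 0) = if q.1 ≤ N then a q.1 else 0
  by_cases h1 : q.1 ≤ N
  · rw [if_pos (h1.trans h), if_pos h1]
  · rw [if_neg h1, ite_self]

theorem lower (hVO : S_VO) (O : LFn) {p σ δ : ℝ} (hp : 1 ≤ p) (hσ : 0 < σ) (hδ : 0 < δ) {ρ : ℂ}
    (hL : O.L ρ = 0) (hρ : 0 < ρ.re) (F : ℕ → ℝ) (B D : ℝ) (hD : 0 < D)
    (hF : ∀ N : ℕ, 2 ≤ N → 0 < F N ∧ F N ≤ B)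
    (hup : ∀ N : ℕ, 2 ≤ N → ∀ u : ℝ → ℂ, Measurable u →
      IntegrableOn (fun y : ℝ => ‖u y‖ ^ p * y ^ (-(p * σ) - 1)) (Ioi 1) →
      ‖∫ y in Ioi (1 : ℝ), u y * KK ρ ((N : ℝ) ^ (1 + δ)) y‖ * F N ≤ D * nl p σ u) :
    ∃ c : ℝ, 0 < c ∧ ∀ (N : ℕ) (a : ℕ → ℂ), 2 ≤ N →
      IntegrableOn (fun y : ℝ => ‖CC O N a y‖ ^ p * y ^ (-(p * σ) - 1)) (Ioi 1) →
      c * F N ≤ nl p σ (CC O N a) := by
  have hρ0 : ρ ≠ 0 := by
    rintro rfl
    simp at hρ
  have hρn : 0 < ‖ρ‖ := norm_pos_iff.2 hρ0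
  obtain ⟨N0, hN0, h0⟩ := pair_low hVO O hp hσ hδ hL hρ
  have hB : 0 < B := (hF 2 le_rfl).1.trans_le (hF 2 le_rfl).2
  set c1 : ℝ := min (1 / B) (1 / (2 * ‖ρ‖) / D) with hc1
  have hc10 : 0 < c1 := lt_min (by positivity) (by positivity)
  have hbig : ∀ (N : ℕ) (a : ℕ → ℂ), N0 ≤ N →
      IntegrableOn (fun y : ℝ => ‖CC O N a y‖ ^ p * y ^ (-(p * σ) - 1)) (Ioi 1) →
      c1 * F N ≤ nl p σ (CC O N a) := by
    intro N a hN hint
    have hN2 : 2 ≤ N := hN0.trans hN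
    obtain ⟨f0, f1⟩ := hF N hN2
    rcases le_or_gt (nl p σ (CC O N a)) 1 with hE | hE
    · have h1 := h0 N a hN hint hE
      have h2 := hup N hN2 _ (CC_meas O N a) hint
      have h3 : 1 / (2 * ‖ρ‖) * F N ≤ D * nl p σ (CC O N a) :=
        (mul_le_mul_of_nonneg_right h1 f0.le).trans h2
      calc c1 * F N ≤ (1 / (2 * ‖ρ‖) / D) * F N :=
            mul_le_mul_of_nonneg_right (min_le_right _ _) f0.le
        _ = (1 / (2 * ‖ρ‖) * F N) / D := by ring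
        _ ≤ nl p σ (CC O N a) := by
            rw [div_le_iff₀ hD]
            linarith
    · refine le_trans ?_ hE.le
      calc c1 * F N ≤ (1 / B) * B :=
            mul_le_mul (min_le_left _ _) f1 f0.le (by positivity)
        _ = 1 := by field_simp
  have hF0 := (hF N0 hN0).1
  refine ⟨min c1 (c1 * F N0 / B), lt_min hc10 (by positivity), ?_⟩
  intro N a hN hint
  obtain ⟨f0, f1⟩ := hF N hN
  rcases le_total N0 N with h | h
  · exact (mul_le_mul_of_nonneg_right (min_le_left _ _) f0.le).trans (hbig N a h hint)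
  · have e : CC O N0 (fun n => if n ≤ N then a n else 0) = CC O N a :=
      funext fun y => cut_CC O h a y
    have h2 := hbig N0 (fun n => if n ≤ N then a n else 0) le_rfl (by rw [e]; exact hint)
    rw [e] at h2
    calc min c1 (c1 * F N0 / B) * F N ≤ (c1 * F N0 / B) * B :=
          mul_le_mul (min_le_right _ _) f1 f0.le (by positivity)
      _ = c1 * F N0 := by field_simp
      _ ≤ _ := h2

theorem t_LO' (hVO : S_VO) : J_LO := by
  intro O p σ δ hp hσ hδ ρ hL hρ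
  have hp0 : 0 < p := by linarith
  obtain ⟨C, hC, hK⟩ := KK_le (ρ := ρ)
  have hZ0 : ∀ (N : ℕ) (d : ℝ), 2 ≤ N → 0 < d → (1 : ℝ) ≤ 2 * (N : ℝ) ^ (1 + d) ∧
      0 < (N : ℝ) ^ (1 + d) := by
    intro N d hN hd
    have h1 : (2 : ℝ) ≤ N := by exact_mod_cast hN
    have h2 : (1 : ℝ) ≤ (N : ℝ) ^ (1 + d) := Real.one_le_rpow (by linarith) (by linarith)
    exact ⟨by linarith, by linarith⟩
  have h3cases : (ρ.re < σ → ∃ c : ℝ, 0 < c ∧ ∀ (N : ℕ) (a : ℕ → ℂ), 2 ≤ N →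
      IntegrableOn (fun y : ℝ => ‖CC O N a y‖ ^ p * y ^ (-(p * σ) - 1)) (Ioi 1) →
      c * (N : ℝ) ^ (-(σ - ρ.re) - δ) ≤ nl p σ (CC O N a)) := by
    intro h
    obtain ⟨τ, hτd⟩ : ∃ τ : ℝ, τ = σ - ρ.re := ⟨_, rfl⟩
    have hτ : 0 < τ := by
      rw [hτd]
      linarith
    have hd : 0 < δ / τ := by positivity
    have hFeq : ∀ N : ℕ, 2 ≤ N → (2 * (N : ℝ) ^ (1 + δ / τ)) ^ τ * (N : ℝ) ^ (-τ - δ) =
        (2 : ℝ) ^ τ := by
      intro N hN
      have h1 : (0 : ℝ) < N := by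
        have : 0 < N := by omega
        exact_mod_cast this
      rw [Real.mul_rpow (by norm_num) (by positivity), ← Real.rpow_mul h1.le, mul_assoc,
        ← Real.rpow_add h1]
      have : (1 + δ / τ) * τ + (-τ - δ) = 0 := by
        field_simp
        ring
      rw [this, Real.rpow_zero, mul_one]
    obtain ⟨D, hD, hup⟩ : ∃ D : ℝ, 0 < D ∧ ∀ N : ℕ, 2 ≤ N → ∀ u : ℝ → ℂ, Measurable u →
        IntegrableOn (fun y : ℝ => ‖u y‖ ^ p * y ^ (-(p * σ) - 1)) (Ioi 1) →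
        ‖∫ y in Ioi (1 : ℝ), u y * KK ρ ((N : ℝ) ^ (1 + δ / τ)) y‖ ≤
          D * (2 * (N : ℝ) ^ (1 + δ / τ)) ^ τ * nl p σ u := by
      rcases hp.eq_or_lt with hp1 | hp1
      · refine ⟨C, hC, ?_⟩
        intro N hN u hu hui
        obtain ⟨z1, z2⟩ := hZ0 N (δ / τ) hN hd
        rw [← hp1] at hui ⊢
        refine up_one (β := ρ.re) (Z := 2 * (N : ℝ) ^ (1 + δ / τ)) hC (by positivity) _
          (KK_meas _ _) (fun y hy => hK _ y z2 hy) (fun y hy => KK_zero z2 hy) ?_ u hu hui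
        intro y hy1 hy2
        rw [← hτd]
        exact Real.rpow_le_rpow (by linarith) hy2 hτ.le
      · have hpq : p.HolderConjugate p.conjExponent := Real.HolderConjugate.conjExponent hp1
        obtain ⟨q, hq⟩ : ∃ q, q = p.conjExponent := ⟨_, rfl⟩
        rw [← hq] at hpq
        have hq0 : 0 < q := hpq.symm.pos
        have hqτ : 0 < q * τ := by positivity
        refine ⟨C * (1 / (q * τ)) ^ (1 / q), by positivity, ?_⟩
        intro N hN u hu hui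
        obtain ⟨z1, z2⟩ := hZ0 N (δ / τ) hN hd
        have z3 : 0 < 2 * (N : ℝ) ^ (1 + δ / τ) := by positivity
        have h1 := up_q (β := ρ.re) (Z := 2 * (N : ℝ) ^ (1 + δ / τ))
          (S := 1 / (q * τ) * (2 * (N : ℝ) ^ (1 + δ / τ)) ^ (q * τ)) hpq hC z1 _
          (KK_meas ρ _) (fun y hy => hK _ y z2 hy) (fun y hy => KK_zero z2 hy) (by
            rw [← hτd, Pool.Agent.Q65.NB.int_mid _ _ hqτ.ne' z1, div_mul_eq_mul_div, one_mul]
            exact div_le_div_of_nonneg_right (by linarith) hqτ.le) u hu hui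
        refine h1.trans (le_of_eq ?_)
        rw [Real.mul_rpow (by positivity) (by positivity), ← Real.rpow_mul z3.le]
        have : q * τ * (1 / q) = τ := by field_simp
        rw [this]
        ring
    obtain ⟨c, hc, hb⟩ := lower hVO O hp hσ hd hL hρ (fun N => (N : ℝ) ^ (-τ - δ)) 1
      (D * (2 : ℝ) ^ τ) (by positivity) (by
        intro N hN
        have h1 : (2 : ℝ) ≤ N := by exact_mod_cast hN
        refine ⟨Real.rpow_pos_of_pos (by linarith) _, ?_⟩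
        exact Real.rpow_le_one_of_one_le_of_nonpos (by linarith) (by linarith)) (by
        intro N hN u hu hui
        have h1 := hup N hN u hu hui
        have h2 : (0 : ℝ) ≤ (N : ℝ) ^ (-τ - δ) := by positivity
        refine (mul_le_mul_of_nonneg_right h1 h2).trans (le_of_eq ?_)
        rw [← hFeq N hN]
        ring)
    refine ⟨c, hc, fun N a hN hint => ?_⟩
    have := hb N a hN hint
    rw [hτd] at this
    exact this
  have h4cases : (ρ.re = σ → ∃ c : ℝ, 0 < c ∧ ∀ (N : ℕ) (a : ℕ → ℂ), 2 ≤ N →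
      IntegrableOn (fun y : ℝ => ‖CC O N a y‖ ^ p * y ^ (-(p * σ) - 1)) (Ioi 1) →
      c * Real.log N ^ (-(1 - 1 / p)) ≤ nl p σ (CC O N a)) := by
    intro h
    have hpe : 0 ≤ 1 - 1 / p := by
      have : 1 / p ≤ 1 := by
        rw [div_le_one hp0]
        exact hp
      linarith
    have hlog2 : 0 < Real.log 2 := Real.log_pos (by norm_num)
    have hlogN : ∀ N : ℕ, 2 ≤ N → Real.log 2 ≤ Real.log N := fun N hN =>
      Real.log_le_log (by norm_num) (by exact_mod_cast hN)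
    obtain ⟨D, hD, hup⟩ : ∃ D : ℝ, 0 < D ∧ ∀ N : ℕ, 2 ≤ N → ∀ u : ℝ → ℂ, Measurable u →
        IntegrableOn (fun y : ℝ => ‖u y‖ ^ p * y ^ (-(p * σ) - 1)) (Ioi 1) →
        ‖∫ y in Ioi (1 : ℝ), u y * KK ρ ((N : ℝ) ^ (1 + δ)) y‖ ≤
          D * Real.log N ^ (1 - 1 / p) * nl p σ u := by
      rcases hp.eq_or_lt with hp1 | hp1
      · refine ⟨C, hC, ?_⟩
        intro N hN u hu hui
        obtain ⟨z1, z2⟩ := hZ0 N δ hN hδ
        have e1 : (1 : ℝ) - 1 / p = 0 := by rw [← hp1]; norm_num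
        rw [e1, Real.rpow_zero]
        rw [← hp1] at hui ⊢
        refine up_one (β := ρ.re) (Z := 2 * (N : ℝ) ^ (1 + δ)) hC zero_le_one _
          (KK_meas _ _) (fun y hy => hK _ y z2 hy) (fun y hy => KK_zero z2 hy) ?_ u hu hui
        intro y hy1 hy2
        rw [h, sub_self, Real.rpow_zero]
      · have hpq : p.HolderConjugate p.conjExponent := Real.HolderConjugate.conjExponent hp1
        obtain ⟨q, hq⟩ : ∃ q, q = p.conjExponent := ⟨_, rfl⟩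
        rw [← hq] at hpq
        have hq0 : 0 < q := hpq.symm.pos
        have hqp : 1 / q = 1 - 1 / p := by
          have h2 := hpq.inv_add_inv_eq_one
          rw [one_div, one_div]
          linarith
        refine ⟨C * (2 + δ) ^ (1 / q), by positivity, ?_⟩
        intro N hN u hu hui
        obtain ⟨z1, z2⟩ := hZ0 N δ hN hδ
        have hN0 : (0 : ℝ) < N := by
          have : 0 < N := by omega
          exact_mod_cast this
        have h1 := up_q (β := ρ.re) (Z := 2 * (N : ℝ) ^ (1 + δ))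
          (S := (2 + δ) * Real.log N) hpq hC z1 _
          (KK_meas ρ _) (fun y hy => hK _ y z2 hy) (fun y hy => KK_zero z2 hy) (by
            rw [h, sub_self, mul_zero, Pool.Agent.Q65.NB.int_mid0 _ z1,
              Real.log_mul (by norm_num) z2.ne', Real.log_rpow hN0]
            have := hlogN N hN
            linarith) u hu hui
        refine h1.trans (le_of_eq ?_)
        rw [Real.mul_rpow (by positivity) (hlog2.le.trans (hlogN N hN)), ← hqp]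
        ring
    obtain ⟨c, hc, hb⟩ := lower hVO O hp hσ hδ hL hρ (fun N => Real.log N ^ (-(1 - 1 / p)))
      (Real.log 2 ^ (-(1 - 1 / p))) D hD (by
        intro N hN
        have h1 := hlogN N hN
        refine ⟨Real.rpow_pos_of_pos (by linarith) _, ?_⟩
        exact Real.rpow_le_rpow_of_nonpos hlog2 h1 (by linarith)) (by
        intro N hN u hu hui
        have h1 := hup N hN u hu hui
        have h0 : 0 < Real.log N := hlog2.trans_le (hlogN N hN)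
        have h2 : (0 : ℝ) ≤ Real.log N ^ (-(1 - 1 / p)) := by positivity
        refine (mul_le_mul_of_nonneg_right h1 h2).trans (le_of_eq ?_)
        have h3 : Real.log N ^ (1 - 1 / p) * Real.log N ^ (-(1 - 1 / p)) = 1 := by
          rw [← Real.rpow_add h0, add_neg_cancel, Real.rpow_zero]
        calc D * Real.log N ^ (1 - 1 / p) * nl p σ u * Real.log N ^ (-(1 - 1 / p))
            = D * nl p σ u * (Real.log N ^ (1 - 1 / p) * Real.log N ^ (-(1 - 1 / p))) := by ring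
          _ = D * nl p σ u := by rw [h3, mul_one])
    exact ⟨c, hc, hb⟩
  have h5cases : (σ < ρ.re → ∃ c : ℝ, 0 < c ∧ ∀ (N : ℕ) (a : ℕ → ℂ), 2 ≤ N →
      IntegrableOn (fun y : ℝ => ‖CC O N a y‖ ^ p * y ^ (-(p * σ) - 1)) (Ioi 1) →
      c ≤ nl p σ (CC O N a)) := by
    intro h
    obtain ⟨τ, hτd⟩ : ∃ τ : ℝ, τ = ρ.re - σ := ⟨_, rfl⟩
    have hτ : 0 < τ := by
      rw [hτd]
      linarith
    have hτ' : σ - ρ.re = -τ := by
      rw [hτd]
      ring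
    obtain ⟨D, hD, hup⟩ : ∃ D : ℝ, 0 < D ∧ ∀ N : ℕ, 2 ≤ N → ∀ u : ℝ → ℂ, Measurable u →
        IntegrableOn (fun y : ℝ => ‖u y‖ ^ p * y ^ (-(p * σ) - 1)) (Ioi 1) →
        ‖∫ y in Ioi (1 : ℝ), u y * KK ρ ((N : ℝ) ^ (1 + δ)) y‖ ≤ D * nl p σ u := by
      rcases hp.eq_or_lt with hp1 | hp1
      · refine ⟨C * 1, by positivity, ?_⟩
        intro N hN u hu hui
        obtain ⟨z1, z2⟩ := hZ0 N δ hN hδ
        rw [← hp1] at hui ⊢
        refine up_one (β := ρ.re) (Z := 2 * (N : ℝ) ^ (1 + δ)) hC zero_le_one _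
          (KK_meas _ _) (fun y hy => hK _ y z2 hy) (fun y hy => KK_zero z2 hy) ?_ u hu hui
        intro y hy1 hy2
        rw [hτ']
        exact Real.rpow_le_one_of_one_le_of_nonpos hy1 (by linarith)
      · have hpq : p.HolderConjugate p.conjExponent := Real.HolderConjugate.conjExponent hp1
        obtain ⟨q, hq⟩ : ∃ q, q = p.conjExponent := ⟨_, rfl⟩
        rw [← hq] at hpq
        have hq0 : 0 < q := hpq.symm.pos
        have hqτ : 0 < q * τ := by positivity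
        refine ⟨C * (1 / (q * τ)) ^ (1 / q), by positivity, ?_⟩
        intro N hN u hu hui
        obtain ⟨z1, z2⟩ := hZ0 N δ hN hδ
        exact up_q (β := ρ.re) (Z := 2 * (N : ℝ) ^ (1 + δ))
          (S := 1 / (q * τ)) hpq hC z1 _
          (KK_meas ρ _) (fun y hy => hK _ y z2 hy) (fun y hy => KK_zero z2 hy) (by
            have hr : q * (σ - ρ.re) = -(q * τ) := by
              rw [hτ']
              ring
            rw [hr, Pool.Agent.Q65.NB.int_mid _ _ (neg_lt_zero.2 hqτ).ne z1, div_neg, ← neg_div,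
              neg_sub]
            refine div_le_div_of_nonneg_right ?_ hqτ.le
            have : 0 ≤ (2 * (N : ℝ) ^ (1 + δ)) ^ (-(q * τ)) := by positivity
            linarith) u hu hui
    obtain ⟨c, hc, hb⟩ := lower hVO O hp hσ hδ hL hρ (fun _ => 1) 1 D hD
      (fun N _ => ⟨one_pos, le_rfl⟩) (by
        intro N hN u hu hui
        rw [mul_one]
        exact hup N hN u hu hui)
    refine ⟨c, hc, fun N a hN hint => ?_⟩
    have := hb N a hN hint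
    rwa [mul_one] at this
  rcases lt_trichotomy ρ.re σ with h | h | h
  · obtain ⟨c, hc, hb⟩ := h3cases h
    exact ⟨c, hc, fun N a hN hint => ⟨fun _ => hb N a hN hint, fun h' => absurd h' h.ne,
      fun h' => absurd h' (not_lt.2 h.le)⟩⟩
  · obtain ⟨c, hc, hb⟩ := h4cases h
    exact ⟨c, hc, fun N a hN hint => ⟨fun h' => absurd h h'.ne, fun _ => hb N a hN hint,
      fun h' => absurd h h'.ne'⟩⟩
  · obtain ⟨c, hc, hb⟩ := h5cases h
    exact ⟨c, hc, fun N a hN hint => ⟨fun h' => absurd h' (not_lt.2 h.le),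
      fun h' => absurd h' h.ne', fun _ => hb N a hN hint⟩⟩

theorem t_LO : J_LO := t_LO' Pool.Agent.Q151.GB.t_VO

end Pool.Agent.Q214.NL
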