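import Pool.Agent.Q214.NL.LO
import Pool.Agent.Q224.NB.HOL

/-!
# Project NL of helper120, job UL: the upper bound
-/

set_option autoImplicit false

namespace Pool.Agent.Q214.NL

open Complex MeasureTheory Filter Topology Set
open Pool.Agent.Q286.GB Pool.Agent.Q120.NL
open Pool.Agent.Q298.GB (CC_meas)

theorem s_low (σ t : ℝ) : min σ 1 / 2 * (1 + |t|) ≤ ‖(σ : ℂ) + t * I‖ := by
  have h1 : σ ≤ ‖(σ : ℂ) + t * I‖ := by
    have := Complex.abs_re_le_norm ((σ : ℂ) + t * I)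
    simp only [add_re, ofReal_re, mul_re, I_re, mul_zero, ofReal_im, I_im, mul_one, sub_self,
      add_zero] at this
    exact (le_abs_self σ).trans this
  have h2 : |t| ≤ ‖(σ : ℂ) + t * I‖ := by
    have := Complex.abs_im_le_norm ((σ : ℂ) + t * I)
    simp only [add_im, ofReal_im, mul_im, ofReal_re, I_im, mul_one, I_re, mul_zero, add_zero,
      zero_add] at this
    exact this
  have h3 : min σ 1 ≤ σ := min_le_left _ _
  have h4 : min σ 1 * |t| ≤ |t| := by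
    have : min σ 1 ≤ 1 := min_le_right _ _
    have h5 := abs_nonneg t
    nlinarith
  linarith

theorem FL_bd (hGZ : J_GZ) (hPE : J_PE) (O : LFn) {θ : ℝ} (hθ : 0 ≤ θ) (hZ : ZF O θ) {σ e : ℝ}
    (h1 : θ < σ) (h2 : σ < θ + 1) (he : 0 < e) : ∃ C : ℝ, 0 < C ∧ ∀ (N : ℕ) (t : ℝ), 1 ≤ N →
    ‖FL O N (mobL O N) (σ + t * I)‖ ≤ C * (N : ℝ) ^ (θ - σ + e) * (1 + |t|) ^ (2 * e - 1) := by
  obtain ⟨C1, hC1, g1⟩ := hGZ O θ hθ hZ σ e h1 he
  obtain ⟨C2, hC2, g2⟩ := hPE O θ hθ hZ σ e h1 h2 he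
  have hσ : 0 < σ := by linarith
  have hm : 0 < min σ 1 / 2 := by
    have : 0 < min σ 1 := lt_min hσ one_pos
    linarith
  refine ⟨C1 * C2 / (min σ 1 / 2), by positivity, ?_⟩
  intro N t hN
  have hN0 : (0 : ℝ) < N := by exact_mod_cast hN
  have ht : 0 < 1 + |t| := by positivity
  have hre : ((σ : ℂ) + t * I).re = σ := by simp
  have him : ((σ : ℂ) + t * I).im = t := by simp
  have k1 := (g1 ((σ : ℂ) + t * I) (by rw [hre])).1
  rw [him] at k1
  have k2 := g2 N t hN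
  have hL : O.L ((σ : ℂ) + t * I) ≠ 0 := hZ _ (by rw [hre]; exact h1)
  set s : ℂ := (σ : ℂ) + t * I with hs
  set A : ℂ := ∑ n ∈ Finset.Icc 1 N, mobL O N n * (n : ℂ) ^ (-s) with hA
  have e1 : 1 - O.L s * A = -(O.L s * (A - (O.L s)⁻¹)) := by
    field_simp
    ring
  have e2 : ‖1 - O.L s * A‖ ≤ (C1 * (1 + |t|) ^ e) * (C2 * (N : ℝ) ^ (θ - σ + e) * (1 + |t|) ^ e) := by
    rw [e1, norm_neg, norm_mul]
    exact mul_le_mul k1 k2 (norm_nonneg _) (by positivity)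
  have e3 := s_low σ t
  rw [← hs] at e3
  have hsn : 0 < ‖s‖ := lt_of_lt_of_le (by positivity) e3
  unfold FL
  rw [norm_div, div_le_iff₀ hsn]
  refine e2.trans ?_
  have e4 : (1 + |t|) ^ (2 * e - 1) * (1 + |t|) = (1 + |t|) ^ e * (1 + |t|) ^ e := by
    rw [← Real.rpow_add ht, Real.rpow_sub_one ht.ne']
    have : 2 * e = e + e := by ring
    rw [this]
    field_simp
  calc C1 * (1 + |t|) ^ e * (C2 * (N : ℝ) ^ (θ - σ + e) * (1 + |t|) ^ e)
      = C1 * C2 / (min σ 1 / 2) * (N : ℝ) ^ (θ - σ + e) * ((1 + |t|) ^ (2 * e - 1)) *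
        (min σ 1 / 2 * (1 + |t|)) := by
        have e5 : C1 * C2 / (min σ 1 / 2) * (min σ 1 / 2) = C1 * C2 := by
          field_simp
        calc C1 * (1 + |t|) ^ e * (C2 * (N : ℝ) ^ (θ - σ + e) * (1 + |t|) ^ e)
            = (C1 * C2) * (N : ℝ) ^ (θ - σ + e) * ((1 + |t|) ^ e * (1 + |t|) ^ e) := by ring
          _ = (C1 * C2 / (min σ 1 / 2) * (min σ 1 / 2)) * (N : ℝ) ^ (θ - σ + e) *
              ((1 + |t|) ^ (2 * e - 1) * (1 + |t|)) := by rw [e4, e5]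
          _ = _ := by ring
    _ ≤ _ := mul_le_mul_of_nonneg_left e3 (by positivity)

theorem FL_cont (O : LFn) (N : ℕ) (a : ℕ → ℂ) {σ : ℝ} (hσ : 0 < σ) :
    Continuous fun t : ℝ => FL O N a (σ + t * I) := by
  have h1 : Continuous fun t : ℝ => (σ : ℂ) + t * I := by fun_prop
  unfold FL
  refine Continuous.div ?_ h1 ?_
  · refine continuous_const.sub ((O.entire.continuous.comp h1).mul ?_)
    refine continuous_finsetSum _ fun n hn => ?_
    rw [Finset.mem_Icc] at hn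
    have hn0 : (n : ℂ) ≠ 0 := by
      have : n ≠ 0 := by omega
      exact_mod_cast this
    exact continuous_const.mul (Continuous.const_cpow h1.neg (Or.inl hn0))
  · intro t h
    have h2 := congrArg Complex.re h
    simp at h2
    linarith

theorem FL_int (hGZ : J_GZ) (hPE : J_PE) (O : LFn) {θ : ℝ} (hθ : 0 ≤ θ) (hZ : ZF O θ) {σ e r : ℝ}
    (h1 : θ < σ) (h2 : σ < θ + 1) (he : 0 < e) (hr : 0 < r) (hr1 : 1 < r * (1 - 2 * e)) :
    ∃ C : ℝ, 0 < C ∧ ∀ N : ℕ, 1 ≤ N →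
    Integrable (fun t : ℝ => ‖FL O N (mobL O N) (σ + t * I)‖ ^ r) ∧
    ∫ t : ℝ, ‖FL O N (mobL O N) (σ + t * I)‖ ^ r ≤ C * ((N : ℝ) ^ (θ - σ + e)) ^ r := by
  obtain ⟨C, hC, hb⟩ := FL_bd hGZ hPE O hθ hZ h1 h2 he
  have hσ : 0 < σ := by linarith
  set g : ℝ → ℝ := fun t => (1 + ‖t‖) ^ (-(r * (1 - 2 * e))) with hg
  have hgi : Integrable g := by
    apply integrable_one_add_norm
    simpa using hr1
  have hg0 : ∀ t, 0 ≤ g t := fun t => by
    simp only [hg]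
    positivity
  have hI0 : 0 ≤ ∫ t, g t := integral_nonneg hg0
  refine ⟨C ^ r * ((∫ t, g t) + 1), by positivity, ?_⟩
  intro N hN
  have hN0 : (0 : ℝ) < N := by exact_mod_cast hN
  have hle : ∀ t : ℝ, ‖FL O N (mobL O N) (σ + t * I)‖ ^ r ≤
      (C ^ r * ((N : ℝ) ^ (θ - σ + e)) ^ r) * g t := by
    intro t
    have ht : 0 < 1 + |t| := by positivity
    refine (Real.rpow_le_rpow (norm_nonneg _) (hb N t hN) hr.le).trans (le_of_eq ?_)
    rw [Real.mul_rpow (by positivity) (by positivity), Real.mul_rpow hC.le (by positivity),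
      ← Real.rpow_mul ht.le]
    simp only [hg, Real.norm_eq_abs]
    congr 2
    ring
  have hint : Integrable (fun t : ℝ => ‖FL O N (mobL O N) (σ + t * I)‖ ^ r) := by
    refine Integrable.mono' (hgi.const_mul (C ^ r * ((N : ℝ) ^ (θ - σ + e)) ^ r)) ?_ ?_
    · exact ((FL_cont O N (mobL O N) hσ).norm.rpow_const fun _ => Or.inr hr.le).aestronglyMeasurable
    · refine Eventually.of_forall fun t => ?_
      rw [Real.norm_eq_abs, abs_of_nonneg (by positivity)]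
      exact hle t
  refine ⟨hint, ?_⟩
  refine (integral_mono hint (hgi.const_mul _) hle).trans ?_
  rw [integral_const_mul]
  have h3 : 0 ≤ C ^ r * ((N : ℝ) ^ (θ - σ + e)) ^ r := by positivity
  nlinarith

theorem big_p (hGZ : J_GZ) (hPE : J_PE) (hLP : J_LP) (O : LFn) {θ : ℝ} (hθ : 0 ≤ θ) (hZ : ZF O θ)
    {p σ ε : ℝ} (hp : 2 ≤ p) (h1 : θ < σ) (h2 : σ < θ + 1) (hε : 0 < ε) :
    ∃ C : ℝ, 0 < C ∧ ∀ N : ℕ, 1 ≤ N →
    IntegrableOn (fun y : ℝ => ‖CC O N (mobL O N) y‖ ^ p * y ^ (-(p * σ) - 1)) (Ioi 1) ∧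
    ∫ y in Ioi (1 : ℝ), ‖CC O N (mobL O N) y‖ ^ p * y ^ (-(p * σ) - 1) ≤
      C * ((N : ℝ) ^ (θ - σ + ε)) ^ p := by
  have hσ : 0 < σ := by linarith
  have hp0 : 0 < p := by linarith
  have hp1 : 0 < p - 1 := by linarith
  set e : ℝ := min ε (1 / (4 * p)) with he
  have he0 : 0 < e := lt_min hε (by positivity)
  have he1 : e ≤ ε := min_le_left _ _
  have he2 : e * (4 * p) ≤ 1 := by
    have : e ≤ 1 / (4 * p) := min_le_right _ _
    rwa [le_div_iff₀ (by positivity)] at this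
  have hq0 : 0 < p / (p - 1) := by positivity
  have hr1 : 1 < p / (p - 1) * (1 - 2 * e) := by
    rw [div_mul_eq_mul_div, lt_div_iff₀ hp1]
    nlinarith
  have hr2 : 1 < 2 * (1 - 2 * e) := by nlinarith
  obtain ⟨C1, hC1, g1⟩ := FL_int hGZ hPE O hθ hZ h1 h2 he0 hq0 hr1
  obtain ⟨C2, hC2, g2⟩ := FL_int hGZ hPE O hθ hZ h1 h2 he0 two_pos hr2
  obtain ⟨C3, hC3, g3⟩ := hLP p hp
  refine ⟨C3 * C1 ^ (p - 1), by positivity, ?_⟩
  intro N hN
  have hN0 : (0 : ℝ) < N := by exact_mod_cast hN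
  have hN1 : (1 : ℝ) ≤ N := by exact_mod_cast hN
  obtain ⟨k1, k2⟩ := g1 N hN
  obtain ⟨k3, k4⟩ := g3 O N (mobL O N) σ hσ (g2 N hN).1 k1
  refine ⟨k3, k4.trans ?_⟩
  have h3 : 0 ≤ ∫ t : ℝ, ‖FL O N (mobL O N) (σ + t * I)‖ ^ (p / (p - 1)) :=
    integral_nonneg fun t => by positivity
  have h4 := Real.rpow_le_rpow h3 k2 hp1.le
  have h5 : (C1 * ((N : ℝ) ^ (θ - σ + e)) ^ (p / (p - 1))) ^ (p - 1) =
      C1 ^ (p - 1) * ((N : ℝ) ^ (θ - σ + e)) ^ p := by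
    rw [Real.mul_rpow hC1.le (by positivity), ← Real.rpow_mul (by positivity),
      div_mul_cancel₀ _ hp1.ne']
  rw [h5] at h4
  have h6 : ((N : ℝ) ^ (θ - σ + e)) ^ p ≤ ((N : ℝ) ^ (θ - σ + ε)) ^ p := by
    apply Real.rpow_le_rpow (by positivity) _ hp0.le
    exact Real.rpow_le_rpow_of_exponent_le hN1 (by linarith)
  calc C3 * (∫ t : ℝ, ‖FL O N (mobL O N) (σ + t * I)‖ ^ (p / (p - 1))) ^ (p - 1)
      ≤ C3 * (C1 ^ (p - 1) * ((N : ℝ) ^ (θ - σ + e)) ^ p) := mul_le_mul_of_nonneg_left h4 hC3.le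
    _ ≤ C3 * (C1 ^ (p - 1) * ((N : ℝ) ^ (θ - σ + ε)) ^ p) := by gcongr
    _ = _ := by ring

theorem t_UL (hGZ : J_GZ) (hPE : J_PE) (hLP : J_LP) : J_UL := by
  intro O θ hθ hZ p σ ε hp h1 h2 hε
  have hp0 : 0 < p := by linarith
  rcases le_or_gt 2 p with h | h
  · obtain ⟨C, hC, hb⟩ := big_p hGZ hPE hLP O hθ hZ h h1 h2 hε
    refine ⟨C ^ (1 / p), by positivity, fun N hN => ⟨(hb N hN).1, ?_⟩⟩
    have hN0 : (0 : ℝ) < N := by exact_mod_cast hN
    have h3 : 0 ≤ ∫ y in Ioi (1 : ℝ), ‖CC O N (mobL O N) y‖ ^ p * y ^ (-(p * σ) - 1) := by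
      refine setIntegral_nonneg measurableSet_Ioi fun y hy => ?_
      have hy0 : (0 : ℝ) < y := lt_trans one_pos hy
      positivity
    have h4 := Real.rpow_le_rpow h3 (hb N hN).2 (one_div_nonneg.2 hp0.le)
    rw [Real.mul_rpow hC.le (by positivity), ← Real.rpow_mul (by positivity) p,
      mul_one_div, div_self hp0.ne', Real.rpow_one] at h4
    exact h4
  · set η : ℝ := min (ε / 2) (min ((σ - θ) / 2) ((θ + 1 - σ) / 2)) with hη
    have hη0 : 0 < η := lt_min (by linarith) (lt_min (by linarith) (by linarith))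
    have hη1 : η ≤ ε / 2 := min_le_left _ _
    have hη2 : η ≤ (σ - θ) / 2 := (min_le_right _ _).trans (min_le_left _ _)
    have hη3 : η ≤ (θ + 1 - σ) / 2 := (min_le_right _ _).trans (min_le_right _ _)
    obtain ⟨C1, hC1, g1⟩ := big_p hGZ hPE hLP O hθ hZ (p := 2) (σ := σ - η) (ε := ε / 2) le_rfl
      (by linarith) (by linarith) (by linarith)
    obtain ⟨C2, hC2, g2⟩ := big_p hGZ hPE hLP O hθ hZ (p := 2) (σ := σ + η) (ε := ε / 2) le_rfl
      (by linarith) (by linarith) (by linarith)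
    obtain ⟨C3, hC3, g3⟩ := Pool.Agent.Q120.NB.t_HOL p σ η hp h.le hη0
    refine ⟨C3 * Real.sqrt (C1 + C2), by positivity, ?_⟩
    intro N hN
    have hN0 : (0 : ℝ) < N := by exact_mod_cast hN
    have hN1 : (1 : ℝ) ≤ N := by exact_mod_cast hN
    set u : ℝ → ℂ := CC O N (mobL O N) with hu
    set v : ℝ → ℂ := (Ioi (1 : ℝ)).indicator u with hv
    have hum : Measurable u := CC_meas O N _
    have e2 : ∀ (x : ℝ) (s : ℝ), ‖v x‖ ^ 2 * x ^ (-(2 * s) - 1) =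
        ‖v x‖ ^ (2 : ℝ) * x ^ (-(2 * s) - 1) := by
      intro x s
      rw [Real.rpow_two]
    have e3 : ∀ s : ℝ, ∫ y in Ioi (0 : ℝ), ‖v y‖ ^ (2 : ℝ) * y ^ (-(2 * s) - 1) =
        ∫ y in Ioi (1 : ℝ), ‖u y‖ ^ (2 : ℝ) * y ^ (-(2 * s) - 1) := by
      intro s
      have h5 : ∀ y : ℝ, ‖v y‖ ^ (2 : ℝ) * y ^ (-(2 * s) - 1) =
          (Ioi (1 : ℝ)).indicator (fun y => ‖u y‖ ^ (2 : ℝ) * y ^ (-(2 * s) - 1)) y := by
        intro y
        by_cases hy : y ∈ Ioi (1 : ℝ)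
        · rw [hv, indicator_of_mem hy, indicator_of_mem hy]
        · rw [hv, indicator_of_notMem hy, indicator_of_notMem hy, norm_zero,
            Real.zero_rpow two_ne_zero, zero_mul]
      simp only [h5]
      rw [setIntegral_indicator measurableSet_Ioi]
      congr 2
      exact inter_eq_right.2 (Ioi_subset_Ioi zero_le_one)
    have i1 : IntegrableOn (fun y : ℝ => ‖v y‖ ^ 2 * y ^ (-(2 * (σ - η)) - 1)) (Ioi 0) := by
      simp only [e2]
      exact int_ind 2 (σ - η) two_pos u (g1 N hN).1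
    have i2 : IntegrableOn (fun y : ℝ => ‖v y‖ ^ 2 * y ^ (-(2 * (σ + η)) - 1)) (Ioi 0) := by
      simp only [e2]
      exact int_ind 2 (σ + η) two_pos u (g2 N hN).1
    obtain ⟨k1, k2⟩ := g3 v (hum.indicator measurableSet_Ioi) i1 i2
    rw [hv, nl_ind p σ hp0] at k2
    constructor
    · have h6 : IntegrableOn (fun y : ℝ => ‖v y‖ ^ p * y ^ (-(p * σ) - 1)) (Ioi 1) :=
        k1.mono_set (Ioi_subset_Ioi zero_le_one)
      refine h6.congr_fun (fun y hy => ?_) measurableSet_Ioi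
      show ‖v y‖ ^ p * y ^ (-(p * σ) - 1) = ‖u y‖ ^ p * y ^ (-(p * σ) - 1)
      rw [hv, indicator_of_mem hy]
    · refine k2.trans ?_
      rw [← hv]
      simp only [e2]
      rw [e3, e3]
      have h7 : ∀ x : ℝ, x ≤ θ - σ + ε → ((N : ℝ) ^ x) ^ (2 : ℝ) ≤ ((N : ℝ) ^ (θ - σ + ε)) ^ 2 := by
        intro x hx
        rw [Real.rpow_two]
        apply pow_le_pow_left₀ (by positivity)
        exact Real.rpow_le_rpow_of_exponent_le hN1 hx
      have h8 := (g1 N hN).2.trans (mul_le_mul_of_nonneg_left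
        (h7 (θ - (σ - η) + ε / 2) (by linarith)) hC1.le)
      have h9 := (g2 N hN).2.trans (mul_le_mul_of_nonneg_left
        (h7 (θ - (σ + η) + ε / 2) (by linarith)) hC2.le)
      have h10 : Real.sqrt ((∫ y in Ioi (1 : ℝ), ‖u y‖ ^ (2 : ℝ) * y ^ (-(2 * (σ - η)) - 1)) +
          ∫ y in Ioi (1 : ℝ), ‖u y‖ ^ (2 : ℝ) * y ^ (-(2 * (σ + η)) - 1)) ≤
          Real.sqrt (C1 + C2) * (N : ℝ) ^ (θ - σ + ε) := by
        have h11 : Real.sqrt (C1 + C2) * (N : ℝ) ^ (θ - σ + ε) =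
            Real.sqrt ((C1 + C2) * ((N : ℝ) ^ (θ - σ + ε)) ^ 2) := by
          rw [Real.sqrt_mul (by positivity), Real.sqrt_sq (by positivity)]
        rw [h11]
        apply Real.sqrt_le_sqrt
        linarith
      calc C3 * _ ≤ C3 * (Real.sqrt (C1 + C2) * (N : ℝ) ^ (θ - σ + ε)) :=
            mul_le_mul_of_nonneg_left h10 hC3.le
        _ = _ := by ring

end Pool.Agent.Q214.NL
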